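import Pool.Agent.BLP.StmtsF

/-!
# Squad BLP, row F_FSA: sandwich for the increments
-/

namespace Pool.Agent.BLP.H35

open MeasureTheory ProbabilityTheory Filter Topology Pool.Agent.BLP

noncomputable section

/-- Row F_FSA. -/
theorem f_fsa : FsaStmt := by
  intro spk qua b hb m m' n n' s s' v e₁ e₂ e' hm hn hn' hs
  constructor
  · intro h1 h2 h3 h4
    have k1 := spk b hb m n n' s' v e' (hm.trans hn) hn' (h1.trans h2) h3
    have k2 := qua b hb m m' n n s s' e₁ v hm hn le_rfl hs h1 h2
    unfold Dx
    linarith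
  · intro h1 h2 h3 h4
    have k1 := spk b hb m' n n' s v e' hn hn' (hs.trans h1) h3
    have k2 := qua b hb m m' n n s s' v e₂ hm hn le_rfl hs h1 h2
    unfold Dx
    linarith

end

end Pool.Agent.BLP.H35
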