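import Pool.Agent.BLP.StmtsV

/-!
# Squad BLP, row V_NOV: almost surely there are no valleys
-/

namespace Pool.Agent.BLP.V.H35

open MeasureTheory ProbabilityTheory Filter Topology Pool.Agent.BLP Pool.Agent.BLP.V
open scoped ENNReal

noncomputable section

/-- Row V_NOV. -/
theorem v_nov (vli : VliStmt) (wib : WibStmt) (clo : CloStmt) (stv : StvStmt) (msv : MsvStmt) :
    NovStmt := by
  intro X _ μ B c hS hc β hI hCM
  have := hS.prob
  unfold NoV
  rw [ae_all_iff]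
  intro m
  rw [ae_all_iff]
  intro k
  rw [ae_all_iff]
  intro p
  rw [ae_all_iff]
  intro q
  rw [ae_all_iff]
  intro A
  rw [ae_all_iff]
  intro G₀
  rw [ae_all_iff]
  intro d
  by_cases hp : 1 ≤ p
  swap
  · exact Eventually.of_forall fun x h => absurd h hp
  by_cases hq : 1 ≤ q
  swap
  · exact Eventually.of_forall fun x _ h => absurd h hq
  by_cases hA : 1 ≤ A
  swap
  · exact Eventually.of_forall fun x _ _ h => absurd h hA
  by_cases hd : 0 < d
  swap
  · exact Eventually.of_forall fun x _ _ _ h => absurd h hd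
  have hdR : (0 : ℝ) < (d : ℝ) := by exact_mod_cast hd
  have hAR : (0 : ℝ) < (A : ℝ) := by exact_mod_cast hA
  obtain ⟨C, hC, hCw⟩ := wib c p q A hc.1 hA
  obtain ⟨P, hP⟩ : ∃ P : ℕ → ℕ → ℕ → X → Prop, P = fun (G i n : ℕ) (x : X) =>
      ¬ Val ((i : ℝ) / G) (((i : ℝ) + 4) / G) p d q ((n : ℤ) - m).toNat (shT k (shL m (B x))) ∧
      Clo (B x) (fun q y z => β q y z x) m k p q (((i : ℚ) + 1) / G) d n ∧
      Clo (B x) (fun q y z => β q y z x) m k p q (((i : ℚ) + 3) / G) d n := ⟨_, rfl⟩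
  obtain ⟨K, hK⟩ : ∃ K : ℝ, K = C * 16 / (2 * (d : ℝ) ^ 2) + 1 := ⟨_, rfl⟩
  have hK0 : 0 ≤ K := by
    rw [hK]
    positivity
  have key : ∀ G i : ℕ, 1 ≤ G → G ≤ A * i → i + 4 ≤ A * G →
      μ {x | ¬ ∃ᶠ n : ℕ in atTop, P G i n x} ≤ ENNReal.ofReal (K / (G : ℝ) ^ 2) := by
    intro G i hG hGi hiG
    have hGR : (0 : ℝ) < (G : ℝ) := by exact_mod_cast hG
    have hGQ : (0 : ℚ) < (G : ℚ) := by exact_mod_cast hG
    have hα : 1 / (A : ℝ) ≤ (i : ℝ) / G := by
      rw [div_le_div_iff₀ hAR hGR, one_mul]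
      have : (G : ℝ) ≤ A * i := by exact_mod_cast hGi
      linarith
    have hα0 : 0 < (i : ℝ) / G := lt_of_lt_of_le (by positivity) hα
    have hαα : (i : ℝ) / G < ((i : ℝ) + 4) / G := by
      apply div_lt_div_of_pos_right _ hGR
      linarith
    have hw := hCw ((i : ℝ) / G) (((i : ℝ) + 4) / G) hα hαα.le
    have hw' : wI c ((i : ℝ) / G) (((i : ℝ) + 4) / G) p q ^ 2 ≤ C * 16 / (G : ℝ) ^ 2 := by
      refine hw.trans (le_of_eq ?_)
      field_simp
      ring
    obtain ⟨δ, hδ⟩ : ∃ δ : ℝ, δ = 1 / (G : ℝ) ^ 2 := ⟨_, rfl⟩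
    have hδ0 : 0 < δ := by
      rw [hδ]
      positivity
    have hbd : wI c ((i : ℝ) / G) (((i : ℝ) + 4) / G) p q ^ 2 / (2 * (d : ℝ) ^ 2) + δ ≤
        K / (G : ℝ) ^ 2 := by
      have h1 : wI c ((i : ℝ) / G) (((i : ℝ) + 4) / G) p q ^ 2 / (2 * (d : ℝ) ^ 2) ≤
          C * 16 / (G : ℝ) ^ 2 / (2 * (d : ℝ) ^ 2) :=
        div_le_div_of_nonneg_right hw' (by positivity)
      have h2 : K / (G : ℝ) ^ 2 = C * 16 / (G : ℝ) ^ 2 / (2 * (d : ℝ) ^ 2) + δ := by
        rw [hK, hδ]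
        field_simp
      rw [h2]
      linarith
    have hset : {x | ¬ ∃ᶠ n : ℕ in atTop, P G i n x} = ⋃ N : ℕ, {x | ∀ n ≥ N, ¬ P G i n x} := by
      ext x
      rw [Set.mem_ofPred_eq, not_frequently, eventually_atTop, Set.mem_iUnion]
      rfl
    have hmono : Monotone fun N : ℕ => {x | ∀ n ≥ N, ¬ P G i n x} := by
      intro N N' h x hx n hn
      exact hx n (h.trans hn)
    rw [hset, hmono.measure_iUnion]
    refine iSup_le fun N => ?_
    refine le_trans ?_ (ENNReal.ofReal_le_ofReal hbd)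
    -- the probability of a valley
    have hv := vli X μ B c hS hc ((i : ℝ) / G) (((i : ℝ) + 4) / G) d (δ / 3) p q hα0 hαα hdR
      (by linarith) hp hq
    have hρ1 : (0 : ℚ) < ((i : ℚ) + 1) / G := by positivity
    have hρ3 : (0 : ℚ) < ((i : ℚ) + 3) / G := by positivity
    have hδ3 : (0 : ℝ≥0∞) < ENNReal.ofReal (δ / 3) := ENNReal.ofReal_pos.2 (by linarith)
    have h1 := (tendsto_order.1 (clo X μ B hS β hI hCM m k p q _ d hρ1 hd)).2 _ hδ3
    have h3 := (tendsto_order.1 (clo X μ B hS β hI hCM m k p q _ d hρ3 hd)).2 _ hδ3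
    rw [eventually_atTop] at h1 h3
    obtain ⟨N₁, hN₁⟩ := h1
    obtain ⟨N₃, hN₃⟩ := h3
    obtain ⟨N₄, hN₄⟩ := exists_nat_ge ((p : ℝ) / ((i : ℝ) / G))
    obtain ⟨n', hn', hvn⟩ := (frequently_atTop.1 hv) (N + N₁ + N₃ + q + N₄ + m.natAbs)
    obtain ⟨n, hn⟩ : ∃ n : ℕ, (n : ℤ) = n' + m := by
      refine ⟨((n' : ℤ) + m).toNat, Int.toNat_of_nonneg ?_⟩
      omega
    have hnn : ((n : ℤ) - m).toNat = n' := by
      rw [hn]
      omega
    have hnN : N ≤ n := by omega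
    have hnN1 : N₁ ≤ n := by omega
    have hnN3 : N₃ ≤ n := by omega
    have hpn : (p : ℝ) ≤ (i : ℝ) / G * n' := by
      have h5 : (N₄ : ℝ) ≤ n' := by
        have : N₄ ≤ n' := by omega
        exact_mod_cast this
      have h6 := hN₄.trans h5
      rw [div_le_iff₀ hα0] at h6
      linarith
    have hms := msv X μ B hS ((i : ℝ) / G) (((i : ℝ) + 4) / G) d p q n' hα0 hαα hdR.le hp hq
      (by omega) hpn
    have hst := stv X μ B hS (Val ((i : ℝ) / G) (((i : ℝ) + 4) / G) p d q n') k m hms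
    have hsub : {x | ∀ n ≥ N, ¬ P G i n x} ⊆
        {x | Val ((i : ℝ) / G) (((i : ℝ) + 4) / G) p d q n' (shT k (shL m (B x)))} ∪
        ({x | ¬ Clo (B x) (fun q y z => β q y z x) m k p q (((i : ℚ) + 1) / G) d n} ∪
        {x | ¬ Clo (B x) (fun q y z => β q y z x) m k p q (((i : ℚ) + 3) / G) d n}) := by
      intro x hx
      have h7 := hx n hnN
      rw [hP] at h7
      simp only [hnn] at h7
      by_contra hcon
      apply h7
      simp only [Set.mem_union, Set.mem_ofPred_eq, not_or, not_not] at hcon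
      exact ⟨hcon.1, hcon.2.1, hcon.2.2⟩
    have hv' : μ {x | Val ((i : ℝ) / G) (((i : ℝ) + 4) / G) p d q n' (B x)} ≤
        ENNReal.ofReal (wI c ((i : ℝ) / G) (((i : ℝ) + 4) / G) p q ^ 2 / (2 * (d : ℝ) ^ 2) +
          δ / 3) := by
      rw [← ENNReal.ofReal_toReal (measure_ne_top μ
        {x | Val ((i : ℝ) / G) (((i : ℝ) + 4) / G) p d q n' (B x)})]
      exact ENNReal.ofReal_le_ofReal hvn
    calc μ {x | ∀ n ≥ N, ¬ P G i n x} ≤ _ := measure_mono hsub
      _ ≤ μ {x | Val ((i : ℝ) / G) (((i : ℝ) + 4) / G) p d q n' (shT k (shL m (B x)))} +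
          (μ {x | ¬ Clo (B x) (fun q y z => β q y z x) m k p q (((i : ℚ) + 1) / G) d n} +
          μ {x | ¬ Clo (B x) (fun q y z => β q y z x) m k p q (((i : ℚ) + 3) / G) d n}) :=
        (measure_union_le _ _).trans (add_le_add le_rfl (measure_union_le _ _))
      _ ≤ ENNReal.ofReal (wI c ((i : ℝ) / G) (((i : ℝ) + 4) / G) p q ^ 2 / (2 * (d : ℝ) ^ 2) +
          δ / 3) + (ENNReal.ofReal (δ / 3) + ENNReal.ofReal (δ / 3)) := by
        refine add_le_add ?_ (add_le_add (hN₁ n hnN1).le (hN₃ n hnN3).le)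
        rw [hst]
        exact hv'
      _ = ENNReal.ofReal (wI c ((i : ℝ) / G) (((i : ℝ) + 4) / G) p q ^ 2 / (2 * (d : ℝ) ^ 2) +
          δ) := by
        rw [← ENNReal.ofReal_add (by linarith) (by linarith),
          ← ENNReal.ofReal_add (by positivity) (by linarith)]
        congr 1
        ring
  -- the exceptional set
  rw [ae_iff]
  obtain ⟨bad, hbad⟩ : ∃ bad : Set X, bad = {x | ¬ (1 ≤ p → 1 ≤ q → 1 ≤ A → 0 < d →
      ∃ G : ℕ, G₀ ≤ G ∧ ∀ i : ℕ, G ≤ A * i → i + 4 ≤ A * G → ∃ᶠ n : ℕ in atTop,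
      ¬ Val ((i : ℝ) / G) (((i : ℝ) + 4) / G) p d q ((n : ℤ) - m).toNat (shT k (shL m (B x))) ∧
      Clo (B x) (fun q y z => β q y z x) m k p q (((i : ℚ) + 1) / G) d n ∧
      Clo (B x) (fun q y z => β q y z x) m k p q (((i : ℚ) + 3) / G) d n)} := ⟨_, rfl⟩
  rw [← hbad]
  have hle : ∀ G : ℕ, max G₀ 1 ≤ G → μ bad ≤ ENNReal.ofReal (A * K / (G : ℝ)) := by
    intro G hG
    have hG0 : G₀ ≤ G := (le_max_left _ _).trans hG
    have hG1 : 1 ≤ G := (le_max_right _ _).trans hG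
    have hGR : (0 : ℝ) < (G : ℝ) := by exact_mod_cast hG1
    have hsub : bad ⊆ ⋃ i ∈ (Finset.range (A * G)).filter (fun i => G ≤ A * i ∧ i + 4 ≤ A * G),
        {x | ¬ ∃ᶠ n : ℕ in atTop, P G i n x} := by
      intro x hx
      rw [hbad, Set.mem_ofPred_eq] at hx
      have h1 : ¬ ∀ i : ℕ, G ≤ A * i → i + 4 ≤ A * G → ∃ᶠ n : ℕ in atTop, P G i n x := by
        intro h
        apply hx
        intro _ _ _ _
        refine ⟨G, hG0, fun i hi1 hi2 => ?_⟩
        have h2 := h i hi1 hi2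
        rw [hP] at h2
        exact h2
      push Not at h1
      obtain ⟨i, hi1, hi2, hi3⟩ := h1
      rw [Set.mem_iUnion₂]
      refine ⟨i, ?_, ?_⟩
      · rw [Finset.mem_filter, Finset.mem_range]
        exact ⟨by omega, hi1, hi2⟩
      · rw [Set.mem_ofPred_eq, not_frequently]
        exact hi3
    calc μ bad ≤ _ := measure_mono hsub
      _ ≤ ∑ i ∈ (Finset.range (A * G)).filter (fun i => G ≤ A * i ∧ i + 4 ≤ A * G),
          μ {x | ¬ ∃ᶠ n : ℕ in atTop, P G i n x} := measure_biUnion_finset_le _ _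
      _ ≤ ∑ _i ∈ (Finset.range (A * G)).filter (fun i => G ≤ A * i ∧ i + 4 ≤ A * G),
          ENNReal.ofReal (K / (G : ℝ) ^ 2) := by
        refine Finset.sum_le_sum fun i hi => ?_
        rw [Finset.mem_filter] at hi
        exact key G i hG1 hi.2.1 hi.2.2
      _ ≤ ∑ _i ∈ Finset.range (A * G), ENNReal.ofReal (K / (G : ℝ) ^ 2) :=
        Finset.sum_le_sum_of_subset (Finset.filter_subset _ _)
      _ = ENNReal.ofReal (A * K / (G : ℝ)) := by
        rw [Finset.sum_const, Finset.card_range, nsmul_eq_mul,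
          ← ENNReal.ofReal_natCast, ← ENNReal.ofReal_mul (by positivity)]
        congr 1
        push_cast
        field_simp
  have hlim : Tendsto (fun G : ℕ => ENNReal.ofReal (A * K / (G : ℝ))) atTop (𝓝 0) := by
    rw [← ENNReal.ofReal_zero]
    refine ENNReal.tendsto_ofReal ?_
    exact tendsto_const_div_atTop_nhds_zero_nat _
  have h0 : μ bad ≤ 0 := by
    refine ge_of_tendsto hlim ?_
    filter_upwards [eventually_ge_atTop (max G₀ 1)] with G hG
    exact hle G hG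
  exact le_antisymm h0 bot_le

end

end Pool.Agent.BLP.V.H35
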